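import Mathlib
import Pool.Agent.Y717.Reg.Delta
import Pool.Agent.Y717.Reg.Sharp

/-!
# Large monochromatic sets for almost regressive colourings of branches

`Branch κ` is the set of functions from the ordinals below the cardinal `κ` to `Bool`, and
`Delta x y` is the least ordinal at which `x` and `y` differ.
-/

set_option autoImplicit false

open Cardinal Set

namespace Pool.Agent.Results.MP_e5b57d_lc.LargeMonochromatic

open Pool.Agent.H529R3

universe u

/-- Some monochromatic set of the colouring `c` of the pairs from `2 ^ κ` has at least `lam`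
elements. -/
def HasMono (κ : Cardinal.{u}) (c : Branch κ → Branch κ → Ordinal.{u}) (lam : Cardinal.{u}) :
    Prop :=
  ∃ Y : Set (Branch κ), Cardinal.lift.{u + 1} lam ≤ #Y ∧ ∃ ν : Ordinal.{u},
    ∀ x ∈ Y, ∀ y ∈ Y, x ≠ y → c x y = ν

/-- The values of `c` at pairs are below the maximum of the first difference and of `μ`. -/
def RegressiveAbove (κ : Cardinal.{u}) (c : Branch κ → Branch κ → Ordinal.{u})
    (μ : Cardinal.{u}) : Prop :=
  ∀ x y, x ≠ y → c x y < max (Delta x y) μ.ord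

/-- Let `κ` be uncountable.  Let `c` be a colouring of the pairs from `2 ^ κ`.
(1) If `c` is regressive above `μ`, where `μ` is infinite and `2 ^ μ < 2 ^ κ`, then `c` has a
monochromatic set of size `lam` for every cardinal `lam` such that `2 ^ τ ≤ 2 ^ μ` for all
`τ < lam`; in particular of size `μ⁺`.
(2) If `2 ^ μ < 2 ^ κ` for all `μ < κ` and `c` is almost `Δ`-regressive, then `c` has a
monochromatic set of size `θ⁺` for every `θ < κ`, hence one of size `κ` if `κ` is a successor; and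
there is one of size `κ` as soon as `2 ^ τ` is bounded by `2 ^ θ`, `τ < κ`, for some `θ < κ`.
(3) Larger sets cannot be had: some almost `Δ`-regressive colouring, with two colours, has no
monochromatic set of size `κ⁺`. -/
theorem result (κ : Cardinal.{u}) (hκ : ℵ₀ < κ) :
    (∀ c : Branch κ → Branch κ → Ordinal.{u}, (∀ x y, c x y = c y x) →
      (∀ μ lam : Cardinal.{u}, ℵ₀ ≤ μ → (2 : Cardinal.{u}) ^ μ < 2 ^ κ →
        (∀ τ < lam, (2 : Cardinal.{u}) ^ τ ≤ 2 ^ μ) → RegressiveAbove κ c μ →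
        HasMono κ c lam) ∧
      ((∀ μ < κ, (2 : Cardinal.{u}) ^ μ < 2 ^ κ) → (∃ μ < κ, RegressiveAbove κ c μ) →
        (∀ θ < κ, HasMono κ c (Order.succ θ)) ∧
        (∀ θ, κ = Order.succ θ → HasMono κ c κ) ∧
        ((∃ θ < κ, ∀ τ < κ, (2 : Cardinal.{u}) ^ τ ≤ 2 ^ θ) → HasMono κ c κ))) ∧
    ∃ c : Branch κ → Branch κ → Ordinal.{u}, (∀ x y, c x y = c y x) ∧ (∀ x y, c x y < 2) ∧
      (∃ μ < κ, RegressiveAbove κ c μ) ∧ ¬ HasMono κ c (Order.succ κ) := by
  constructor
  · intro c hsymm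
    have h1 : ∀ μ lam : Cardinal.{u}, ℵ₀ ≤ μ → (2 : Cardinal.{u}) ^ μ < 2 ^ κ →
        (∀ τ < lam, (2 : Cardinal.{u}) ^ τ ≤ 2 ^ μ) → RegressiveAbove κ c μ → HasMono κ c lam :=
      fun μ lam hμ hlt hlam hc => Pool.Agent.Y717.Reg.main' hμ hlt hlam c hsymm hc
    have hmono : ∀ μ μ' : Cardinal.{u}, μ ≤ μ' → RegressiveAbove κ c μ →
        RegressiveAbove κ c μ' :=
      fun μ μ' hle hc x y hxy => (hc x y hxy).trans_le
        (max_le_max le_rfl (Cardinal.ord_le_ord.mpr hle))
    refine ⟨h1, fun hpow ⟨μ, hμ, hc⟩ => ?_⟩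
    have h2 : ∀ θ < κ, HasMono κ c (Order.succ θ) := by
      intro θ hθ
      have h3 : max (max μ θ) ℵ₀ < κ := max_lt (max_lt hμ hθ) hκ
      refine h1 (max (max μ θ) ℵ₀) _ (le_max_right _ _) (hpow _ h3) (fun τ hτ => ?_)
        (hmono _ _ ((le_max_left _ _).trans (le_max_left _ _)) hc)
      exact Cardinal.power_le_power_left two_ne_zero
        ((Order.lt_succ_iff.mp hτ).trans ((le_max_right _ _).trans (le_max_left _ _)))
    refine ⟨h2, fun θ hθ => ?_, fun ⟨θ, hθ, hb⟩ => ?_⟩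
    · have h3 := h2 θ (hθ ▸ Order.lt_succ θ)
      rwa [← hθ] at h3
    · have h3 : max (max μ θ) ℵ₀ < κ := max_lt (max_lt hμ hθ) hκ
      refine h1 (max (max μ θ) ℵ₀) _ (le_max_right _ _) (hpow _ h3) (fun τ hτ => ?_)
        (hmono _ _ ((le_max_left _ _).trans (le_max_left _ _)) hc)
      exact (hb τ hτ).trans (Cardinal.power_le_power_left two_ne_zero
        ((le_max_right _ _).trans (le_max_left _ _)))
  · obtain ⟨c, h1, h2, h3⟩ := Pool.Agent.Y717.Reg.exists_sharp hκ.le
    refine ⟨c, h1, h2, ⟨ℵ₀, hκ, fun x y _ => (h2 x y).trans_le ?_⟩, ?_⟩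
    · refine le_trans ?_ (le_max_right _ _)
      rw [Cardinal.ord_aleph0]
      exact (Ordinal.natCast_lt_omega0 2).le
    · rintro ⟨Y, hY, ν, hν⟩
      have h4 := hY.trans (h3 Y ⟨ν, hν⟩)
      rw [Cardinal.lift_le] at h4
      exact absurd h4 (not_le.mpr (Order.lt_succ κ))

end Pool.Agent.Results.MP_e5b57d_lc.LargeMonochromatic
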